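import Pool.Agent.H2LQ.Fin

/-!
# MP_f0c992_lc: a finite-dimensional connected compact low₂-presented Polish space which is not
homeomorphic to any computably presented Polish space

Both questions are answered. The space consists of the solenoid of the product of the circles along
the maps `w ↦ M n • w` (`M n = 2 ^ 2 ^ n + 1`), together with one arc for every `n` in a set `Sᶜ`,
which joins the base point of the solenoid with its translate by the point `1 / M n` of the `n`-th
fibre group; `S` is the complement of the jump of the oracle. The map to the circle is divisible by
`M n` exactly if there is no arc for `n`. If the space had a computable presentation, divisibility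
would be `Σ₂`.
-/

set_option autoImplicit false

namespace Pool.Agent.Results.MP_f0c992_lc.LowTwoCompactConnected

open Pool.Agent.Helper227
open Pool.Agent.W952.LP (zero Presented DimLE)

/-- The `n`-th Turing jump of `D` is Turing equivalent to the `n`-th Turing jump of the empty set. -/
def LowN (n : ℕ) (D : ℕ → Bool) : Prop :=
  TLe (jump^[n] D) (jump^[n] zero) ∧ TLe (jump^[n] zero) (jump^[n] D)

theorem zero_le (D : ℕ → Bool) : TLe zero D := by
  have h : Nat.Partrec (chi zero) := by
    have : chi zero = fun _ => Part.some 0 := rfl
    rw [this]
    exact Nat.Partrec.zero
  exact Partrec.turingReducible (Partrec.nat_iff.2 h)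

theorem mono (n : ℕ) {x y : ℕ → Bool} (h : TLe x y) : TLe (jump^[n] x) (jump^[n] y) := by
  induction n generalizing x y with
  | zero => exact h
  | succ n ih => exact ih h.jump

/-- There is a degree `D` which is low₂, hence low₄, and a compact connected metrizable space `P` of
covering dimension at most `8` with a `D`-computable presentation, which is not homeomorphic to any
computably presented Polish space. -/
theorem result : ∃ D : ℕ → Bool, LowN 2 D ∧ LowN 4 D ∧
    ∃ (P : Type) (_ : TopologicalSpace P), CompactSpace P ∧ ConnectedSpace P ∧ DimLE P 8 ∧
      Presented D P ∧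
      ∀ (Q : Type) [TopologicalSpace Q], Presented zero Q → IsEmpty (P ≃ₜ Q) := by
  obtain ⟨D, hD, h⟩ := Pool.Agent.H2LQ.main
  refine ⟨D, ⟨hD, mono 2 (zero_le D)⟩, ⟨?_, mono 4 (zero_le D)⟩, h⟩
  exact mono 2 (x := jump (jump D)) (y := jump (jump zero)) hD

end Pool.Agent.Results.MP_f0c992_lc.LowTwoCompactConnected
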